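import Pool.Agent.W868.FI.Stms

/-! Gluing along nearly equal laws. -/

set_option autoImplicit false

open MeasureTheory Set
open scoped ENNReal

namespace Pool.Agent.W338.FI.Glue

open Pool.Agent.W868.FI

lemma meas_fib {O Z : Type} [MeasurableSpace O] [Fintype Z] (P : Measure O) (u : O → Z)
    (h : ∀ s, MeasurableSet (u ⁻¹' {s})) (s : Set O) (hs : MeasurableSet s) (R : Finset Z) :
    P (s ∩ u ⁻¹' (R : Set Z)) = ∑ z ∈ R, P (s ∩ u ⁻¹' {z}) := by
  rw [← measure_biUnion_finset]
  · congr 1
    ext x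
    simp only [mem_inter_iff, mem_preimage, Finset.mem_coe, mem_iUnion, mem_singleton_iff,
      exists_prop, exists_and_left, exists_eq_right']
    constructor
    · rintro ⟨a, b⟩
      exact ⟨u x, b, a, rfl⟩
    · rintro ⟨z, a, b, rfl⟩
      exact ⟨b, a⟩
  · intro i _ j _ hij
    refine Set.disjoint_left.2 fun x hx hy => hij ?_
    exact (hx.2 : u x = i).symm.trans hy.2
  · intro z _
    exact hs.inter (h z)

lemma restr_sum {O Z : Type} [MeasurableSpace O] [Fintype Z] (P : Measure O) (u : O → Z)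
    (h : ∀ s, MeasurableSet (u ⁻¹' {s})) : ∑ z, P.restrict (u ⁻¹' {z}) = P := by
  refine Measure.ext fun s hs => ?_
  rw [Measure.coe_finsetSum, Finset.sum_apply]
  have h1 := meas_fib P u h s hs Finset.univ
  rw [Finset.coe_univ, preimage_univ, inter_univ] at h1
  rw [h1]
  exact Finset.sum_congr rfl fun z _ => Measure.restrict_apply hs

lemma smul_cond {O : Type} [MeasurableSpace O] (P : Measure O) [IsProbabilityMeasure P]
    (A : Set O) : P A • ProbabilityTheory.cond P A = P.restrict A := by
  unfold ProbabilityTheory.cond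
  rw [smul_smul]
  by_cases h : P A = 0
  · rw [Measure.restrict_eq_zero.2 h, smul_zero]
  · rw [ENNReal.mul_inv_cancel h (measure_ne_top P A), one_smul]

theorem glue : S_GLUE := by
  classical
  intro O₁ O₂ Z _ _ _ P₁ _ P₂ _ u₁ h₁ u₂ h₂ η hη
  obtain ⟨p, hp⟩ : ∃ p : Z → ℝ≥0∞, ∀ z, P₁ (u₁ ⁻¹' {z}) = p z := ⟨_, fun _ => rfl⟩
  obtain ⟨q, hq⟩ : ∃ q : Z → ℝ≥0∞, ∀ z, P₂ (u₂ ⁻¹' {z}) = q z := ⟨_, fun _ => rfl⟩
  have hpt : ∀ z, p z ≠ ⊤ := fun z => by rw [← hp]; exact measure_ne_top _ _
  have hqt : ∀ z, q z ≠ ⊤ := fun z => by rw [← hq]; exact measure_ne_top _ _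
  have sp : ∀ R : Finset Z, P₁ (u₁ ⁻¹' (R : Set Z)) = ∑ z ∈ R, p z := by
    intro R
    have := meas_fib P₁ u₁ h₁ univ MeasurableSet.univ R
    simpa only [univ_inter, hp] using this
  have sq : ∀ R : Finset Z, P₂ (u₂ ⁻¹' (R : Set Z)) = ∑ z ∈ R, q z := by
    intro R
    have := meas_fib P₂ u₂ h₂ univ MeasurableSet.univ R
    simpa only [univ_inter, hq] using this
  have p1 : ∑ z, p z = 1 := by
    rw [← sp Finset.univ, Finset.coe_univ, preimage_univ, measure_univ]
  have q1 : ∑ z, q z = 1 := by
    rw [← sq Finset.univ, Finset.coe_univ, preimage_univ, measure_univ]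
  have ep : ∀ z, p z = min (p z) (q z) + (p z - q z) := by
    intro z
    rcases le_total (p z) (q z) with h | h
    · rw [min_eq_left h, tsub_eq_zero_of_le h, add_zero]
    · rw [min_eq_right h, add_tsub_cancel_of_le h]
  have eq : ∀ z, q z = min (p z) (q z) + (q z - p z) := by
    intro z
    rcases le_total (p z) (q z) with h | h
    · rw [min_eq_left h, add_tsub_cancel_of_le h]
    · rw [min_eq_right h, tsub_eq_zero_of_le h, add_zero]
  obtain ⟨T, hT⟩ : ∃ T : ℝ≥0∞, ∑ z, (p z - q z) = T := ⟨_, rfl⟩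
  have hT' : ∑ z, (q z - p z) = T := by
    have e1 : ∑ z, p z = ∑ z, min (p z) (q z) + ∑ z, (p z - q z) := by
      rw [← Finset.sum_add_distrib]
      exact Finset.sum_congr rfl fun z _ => ep z
    have e2 : ∑ z, q z = ∑ z, min (p z) (q z) + ∑ z, (q z - p z) := by
      rw [← Finset.sum_add_distrib]
      exact Finset.sum_congr rfl fun z _ => eq z
    have e3 : ∑ z, min (p z) (q z) ≠ ⊤ :=
      ENNReal.sum_ne_top.2 fun z _ => ne_top_of_le_ne_top (hpt z) (min_le_left _ _)
    rw [p1, hT] at e1
    rw [q1] at e2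
    exact ((ENNReal.add_right_inj e3).1 (e1.symm.trans e2)).symm
  have hTtop : T ≠ ⊤ := by
    rw [← hT]
    exact ENNReal.sum_ne_top.2 fun z _ => ne_top_of_le_ne_top (hpt z) tsub_le_self
  have hTη : T ≤ ENNReal.ofReal η := by
    set R : Finset Z := Finset.univ.filter fun z => q z < p z with hR
    have e1 : ∑ z ∈ R, (p z - q z) = T := by
      rw [← hT]
      refine Finset.sum_subset (Finset.subset_univ R) fun z _ hz => ?_
      have : p z ≤ q z := by
        by_contra h
        exact hz (Finset.mem_filter.2 ⟨Finset.mem_univ z, not_le.1 h⟩)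
      exact tsub_eq_zero_of_le this
    have e2 : ∑ z ∈ R, p z = ∑ z ∈ R, q z + T := by
      rw [← e1, ← Finset.sum_add_distrib]
      refine Finset.sum_congr rfl fun z hz => ?_
      rw [add_tsub_cancel_of_le (Finset.mem_filter.1 hz).2.le]
    have e3 := hη (R : Set Z)
    rw [sp R, sq R, e2] at e3
    exact (ENNReal.add_le_add_iff_left (ENNReal.sum_ne_top.2 fun z _ => hqt z)).1 e3
  -- the coupling
  set w : Z → Z → ℝ≥0∞ := fun z z' =>
    (if z = z' then min (p z) (q z) else 0) + (p z - q z) * (q z' - p z') / T with hw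
  have wp : ∀ z, ∑ z', w z z' = p z := by
    intro z
    rw [hw]
    simp only [Finset.sum_add_distrib, Finset.sum_ite_eq, Finset.mem_univ, if_true]
    have e1 : ∑ z', (p z - q z) * (q z' - p z') / T = (p z - q z) * (T / T) := by
      simp only [div_eq_mul_inv]
      rw [← Finset.sum_mul, ← Finset.mul_sum, hT', mul_assoc]
    rw [e1]
    by_cases h0 : T = 0
    · have : p z - q z = 0 := by
        rw [← hT] at h0
        exact (Finset.sum_eq_zero_iff.1 h0) z (Finset.mem_univ z)
      rw [this, zero_mul]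
      conv_rhs => rw [ep z, this]
    · rw [ENNReal.div_self h0 hTtop, mul_one]
      exact (ep z).symm
  have wq : ∀ z', ∑ z, w z z' = q z' := by
    intro z'
    rw [hw]
    simp only [Finset.sum_add_distrib, Finset.sum_ite_eq', Finset.mem_univ, if_true]
    have e1 : ∑ z, (p z - q z) * (q z' - p z') / T = (q z' - p z') * (T / T) := by
      simp only [div_eq_mul_inv]
      rw [← Finset.sum_mul, ← Finset.sum_mul, hT]
      ring
    rw [e1]
    by_cases h0 : T = 0
    · have : q z' - p z' = 0 := by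
        rw [← hT'] at h0
        exact (Finset.sum_eq_zero_iff.1 h0) z' (Finset.mem_univ z')
      rw [this, zero_mul]
      conv_rhs => rw [eq z', this]
    · rw [ENNReal.div_self h0 hTtop, mul_one]
      exact (eq z').symm
  have w0p : ∀ z z', p z = 0 → w z z' = 0 := by
    intro z z' h
    have h1 := wp z
    rw [h] at h1
    exact (Finset.sum_eq_zero_iff.1 h1) z' (Finset.mem_univ z')
  have w0q : ∀ z z', q z' = 0 → w z z' = 0 := by
    intro z z' h
    have h1 := wq z'
    rw [h] at h1
    exact (Finset.sum_eq_zero_iff.1 h1) z (Finset.mem_univ z)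
  have c1 : ∀ z, p z ≠ 0 → ProbabilityTheory.cond P₁ (u₁ ⁻¹' {z}) univ = 1 := by
    intro z hz
    have : IsProbabilityMeasure (ProbabilityTheory.cond P₁ (u₁ ⁻¹' {z})) :=
      ProbabilityTheory.cond_isProbabilityMeasure (by rw [hp]; exact hz)
    exact measure_univ
  have c2 : ∀ z, q z ≠ 0 → ProbabilityTheory.cond P₂ (u₂ ⁻¹' {z}) univ = 1 := by
    intro z hz
    have : IsProbabilityMeasure (ProbabilityTheory.cond P₂ (u₂ ⁻¹' {z})) :=
      ProbabilityTheory.cond_isProbabilityMeasure (by rw [hq]; exact hz)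
    exact measure_univ
  refine ⟨∑ z, ∑ z', w z z' • ((ProbabilityTheory.cond P₁ (u₁ ⁻¹' {z})).prod
    (ProbabilityTheory.cond P₂ (u₂ ⁻¹' {z'}))), ?_, ?_, ?_⟩
  · have e1 : ∀ z z', Measure.map Prod.fst (w z z' •
        ((ProbabilityTheory.cond P₁ (u₁ ⁻¹' {z})).prod
        (ProbabilityTheory.cond P₂ (u₂ ⁻¹' {z'})))) =
        w z z' • ProbabilityTheory.cond P₁ (u₁ ⁻¹' {z}) := by
      intro z z'
      by_cases h : q z' = 0
      · rw [w0q z z' h, zero_smul, zero_smul, Measure.map_zero]
      · rw [Measure.map_smul, Measure.map_fst_prod, c2 z' h, one_smul]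
    have e2 : Measure.map Prod.fst (∑ z, ∑ z', w z z' •
        ((ProbabilityTheory.cond P₁ (u₁ ⁻¹' {z})).prod
        (ProbabilityTheory.cond P₂ (u₂ ⁻¹' {z'})))) =
        ∑ z, ∑ z', w z z' • ProbabilityTheory.cond P₁ (u₁ ⁻¹' {z}) := by
      refine Measure.ext fun s hs => ?_
      rw [Measure.map_apply measurable_fst hs]
      simp only [Measure.coe_finsetSum, Finset.sum_apply]
      refine Finset.sum_congr rfl fun z _ => Finset.sum_congr rfl fun z' _ => ?_
      rw [← e1 z z', Measure.map_apply measurable_fst hs]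
    rw [e2]
    have e3 : ∀ z, ∑ z', w z z' • ProbabilityTheory.cond P₁ (u₁ ⁻¹' {z}) =
        P₁.restrict (u₁ ⁻¹' {z}) := by
      intro z
      rw [← Finset.sum_smul, wp z, ← hp z, smul_cond]
    rw [Finset.sum_congr rfl fun z _ => e3 z, restr_sum P₁ u₁ h₁]
  · have e1 : ∀ z z', Measure.map Prod.snd (w z z' •
        ((ProbabilityTheory.cond P₁ (u₁ ⁻¹' {z})).prod
        (ProbabilityTheory.cond P₂ (u₂ ⁻¹' {z'})))) =
        w z z' • ProbabilityTheory.cond P₂ (u₂ ⁻¹' {z'}) := by
      intro z z'
      by_cases h : p z = 0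
      · rw [w0p z z' h, zero_smul, zero_smul, Measure.map_zero]
      · rw [Measure.map_smul, Measure.map_snd_prod, c1 z h, one_smul]
    have e2 : Measure.map Prod.snd (∑ z, ∑ z', w z z' •
        ((ProbabilityTheory.cond P₁ (u₁ ⁻¹' {z})).prod
        (ProbabilityTheory.cond P₂ (u₂ ⁻¹' {z'})))) =
        ∑ z, ∑ z', w z z' • ProbabilityTheory.cond P₂ (u₂ ⁻¹' {z'}) := by
      refine Measure.ext fun s hs => ?_
      rw [Measure.map_apply measurable_snd hs]
      simp only [Measure.coe_finsetSum, Finset.sum_apply]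
      refine Finset.sum_congr rfl fun z _ => Finset.sum_congr rfl fun z' _ => ?_
      rw [← e1 z z', Measure.map_apply measurable_snd hs]
    rw [e2, Finset.sum_comm]
    have e3 : ∀ z', ∑ z, w z z' • ProbabilityTheory.cond P₂ (u₂ ⁻¹' {z'}) =
        P₂.restrict (u₂ ⁻¹' {z'}) := by
      intro z'
      rw [← Finset.sum_smul, wq z', ← hq z', smul_cond]
    rw [Finset.sum_congr rfl fun z _ => e3 z, restr_sum P₂ u₂ h₂]
  · simp only [Measure.coe_finsetSum, Finset.sum_apply, Measure.smul_apply, smul_eq_mul]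
    have e1 : ∀ z z', w z z' * ((ProbabilityTheory.cond P₁ (u₁ ⁻¹' {z})).prod
        (ProbabilityTheory.cond P₂ (u₂ ⁻¹' {z'}))) {p | u₁ p.1 ≠ u₂ p.2} ≤
        (p z - q z) * (q z' - p z') / T := by
      intro z z'
      by_cases hpz : p z = 0
      · rw [w0p z z' hpz, zero_mul]
        exact zero_le
      by_cases hqz : q z' = 0
      · rw [w0q z z' hqz, zero_mul]
        exact zero_le
      have i1 : IsProbabilityMeasure (ProbabilityTheory.cond P₁ (u₁ ⁻¹' {z})) :=
        ProbabilityTheory.cond_isProbabilityMeasure (by rw [hp]; exact hpz)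
      have i2 : IsProbabilityMeasure (ProbabilityTheory.cond P₂ (u₂ ⁻¹' {z'})) :=
        ProbabilityTheory.cond_isProbabilityMeasure (by rw [hq]; exact hqz)
      by_cases h : z = z'
      · subst h
        have hz : ((ProbabilityTheory.cond P₁ (u₁ ⁻¹' {z})).prod
            (ProbabilityTheory.cond P₂ (u₂ ⁻¹' {z}))) {p | u₁ p.1 ≠ u₂ p.2} = 0 := by
          refine measure_mono_null (t := ((u₁ ⁻¹' {z})ᶜ ×ˢ univ) ∪ (univ ×ˢ (u₂ ⁻¹' {z})ᶜ)) ?_ ?_
          · rintro ⟨x, y⟩ hxy
            by_contra hn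
            apply hxy
            rw [mem_union, not_or] at hn
            have a1 : u₁ x = z := by
              by_contra hx
              exact hn.1 ⟨hx, mem_univ _⟩
            have a2 : u₂ y = z := by
              by_contra hy
              exact hn.2 ⟨mem_univ _, hy⟩
            rw [a1, a2]
          · refine measure_union_null ?_ ?_
            · rw [Measure.prod_prod, ProbabilityTheory.cond_apply (h₁ z), inter_compl_self,
                measure_empty, mul_zero, zero_mul]
            · rw [Measure.prod_prod, ProbabilityTheory.cond_apply (h₂ z), inter_compl_self,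
                measure_empty, mul_zero, mul_zero]
        rw [hz, mul_zero]
        exact zero_le
      · have hwz : w z z' = (p z - q z) * (q z' - p z') / T := by
          rw [hw]
          dsimp only
          rw [if_neg h, zero_add]
        rw [hwz]
        calc _ ≤ (p z - q z) * (q z' - p z') / T * 1 := by
              gcongr
              exact prob_le_one
          _ = _ := mul_one _
    calc _ ≤ ∑ z, ∑ z', (p z - q z) * (q z' - p z') / T :=
          Finset.sum_le_sum fun z _ => Finset.sum_le_sum fun z' _ => e1 z z'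
      _ = T * T / T := by
          simp only [div_eq_mul_inv]
          rw [Finset.sum_congr rfl fun z _ => (Finset.sum_mul _ _ _).symm,
            Finset.sum_congr rfl fun z _ => by rw [← Finset.mul_sum, hT'],
            ← Finset.sum_mul, ← Finset.sum_mul, hT]
      _ ≤ T := by
          by_cases h0 : T = 0
          · rw [h0]; simp
          · rw [ENNReal.mul_div_cancel_right h0 hTtop]
      _ ≤ ENNReal.ofReal η := hTη

end Pool.Agent.W338.FI.Glue
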